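import Pool.Agent.W2helper2.LL.BJStm
import Pool.Agent.W2helper44.LL.FR
import Pool.Agent.W2helper46.LL.CN

/-!
# PIECE ADD: `Af = K + Ô`
-/

set_option autoImplicit false

noncomputable section

namespace Pool.Agent.W2helper71.LL

open IsDedekindDomain Polynomial Matrix WithZero
open Pool.Agent.W2helper63.LL Pool.Agent.W2helper46.LL Pool.Agent.W2helper2.LL
open scoped Classical

theorem val_R_le (v : Pl) (a : R) : v.valuation K (algebraMap R K a) ≤ 1 :=
  v.valuation_le_one a

theorem val_K (v : Pl) (r : K) : Valued.v (algebraMap K (Kv v) r) = v.valuation K r :=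
  HeightOneSpectrum.valuedAdicCompletion_eq_valuation' v r

theorem prime_gn (v : Pl) : Prime (gn v) := by
  have h := v.isPrime
  rw [gn_span v] at h
  exact (Ideal.span_singleton_prime (gn_ne v)).1 h

/-- partial fractions -/
theorem frac (v : Pl) (r : K) : ∃ κ : K, v.valuation K (r - κ) ≤ 1 ∧
    ∀ w, w ≠ v → w.valuation K κ ≤ 1 := by
  obtain ⟨a, b, hb, rfl⟩ := IsFractionRing.div_surjective (A := R) r
  have hb0 : b ≠ 0 := nonZeroDivisors.ne_zero hb
  have hg := prime_gn v
  obtain ⟨n, b', hb', hbn⟩ := WfDvdMonoid.max_power_factor' hb0 hg.not_isUnit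
  have hb'0 : b' ≠ 0 := by
    rintro rfl
    exact hb' (dvd_zero _)
  have hco : IsCoprime (gn v ^ n) b' :=
    ((hg.irreducible.coprime_iff_not_dvd).2 hb').pow_left
  obtain ⟨u, s, hus⟩ := hco
  have hgK : algebraMap R K (gn v) ≠ 0 := gnK_ne v
  have hb'K : algebraMap R K b' ≠ 0 := by
    rw [Ne, FaithfulSMul.algebraMap_eq_zero_iff]
    exact hb'0
  refine ⟨algebraMap R K (a * s) / algebraMap R K (gn v) ^ n, ?_, ?_⟩
  · have h1 : algebraMap R K a / algebraMap R K b -
        algebraMap R K (a * s) / algebraMap R K (gn v) ^ n =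
        algebraMap R K (a * u) / algebraMap R K b' := by
      have h2 : algebraMap R K b = algebraMap R K (gn v) ^ n * algebraMap R K b' := by
        rw [hbn, map_mul, map_pow]
      have h3 := congrArg (algebraMap R K) hus
      rw [map_add, map_mul, map_mul, map_pow, map_one] at h3
      rw [h2, map_mul, map_mul]
      field_simp
      linear_combination (-algebraMap R K a) * h3
    rw [h1, map_div₀]
    have h4 : v.valuation K (algebraMap R K b') = 1 := by
      rw [HeightOneSpectrum.valuation_eq_one_iff_notMem, gn_span v, Ideal.mem_span_singleton]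
      exact hb'
    rw [h4, div_one]
    exact val_R_le v _
  · intro w hw
    rw [map_div₀, map_pow, val_gn_ne hw, one_pow, div_one]
    exact val_R_le w _

theorem loc (v : Pl) (x : Kv v) : ∃ κ : K, Valued.v (x - algebraMap K (Kv v) κ) ≤ 1 ∧
    ∀ w, w ≠ v → w.valuation K κ ≤ 1 := by
  obtain ⟨r, hr⟩ := FR.approx (algebraMap K (Kv v)) (HeightOneSpectrum.denseRange_algebraMap K v) x
  obtain ⟨κ, h1, h2⟩ := frac v r
  refine ⟨κ, ?_, h2⟩
  have h3 : x - algebraMap K (Kv v) κ =
      -(algebraMap K (Kv v) r - x) + algebraMap K (Kv v) (r - κ) := by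
    rw [map_sub]
    ring
  rw [h3]
  refine (Valuation.map_add _ _ _).trans (max_le ?_ ?_)
  · rw [Valuation.map_neg]
    exact hr.le
  · rw [val_K]
    exact h1

theorem add : S_ADD := by
  intro x
  have hx : {v : Pl | ¬ Valued.v (x v) ≤ 1}.Finite := by
    have h := x.2
    rw [Filter.eventually_cofinite] at h
    exact h
  choose κ h1 h2 using fun v : Pl => loc v (x v)
  refine ⟨∑ v ∈ hx.toFinset, κ v, fun w => ?_⟩
  have h3 : (x - algebraMap K Af (∑ v ∈ hx.toFinset, κ v)) w =
      x w - algebraMap K (Kv w) (∑ v ∈ hx.toFinset, κ v) := rfl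
  rw [h3]
  have hsum : ∀ s : Finset Pl, w ∉ s →
      Valued.v (algebraMap K (Kv w) (∑ v ∈ s, κ v)) ≤ 1 := by
    intro s hs
    rw [val_K]
    exact Valuation.map_sum_le _ fun v hv => h2 v w (by
      rintro rfl
      exact hs hv)
  by_cases hw : w ∈ hx.toFinset
  · rw [← Finset.add_sum_erase _ _ hw, map_add, ← sub_sub]
    refine (Valuation.map_sub _ _ _).trans (max_le (h1 w) ?_)
    exact hsum _ (by simp)
  · refine (Valuation.map_sub _ _ _).trans (max_le ?_ (hsum _ hw))
    by_contra h
    exact hw (hx.mem_toFinset.2 h)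

end Pool.Agent.W2helper71.LL
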